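import Mathlib

/-!
# Symmetrization and inner functions in the quaternionic Hardy space

A slice regular function `f(q) = ∑ q ^ n a_n` on the unit ball of the quaternions is given by its
coefficient sequence, written as a formal power series over `ℍ[ℝ]`; the product of formal power
series is the `*`-product. For every `m`, the function `f(q) = q ^ m * exp_*(q i)`
has the symmetrization `q ^ (2 m)`, which is inner, while neither `f` nor its conjugate is inner.
-/

set_option autoImplicit false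

open MeasureTheory Filter Topology Metric
open scoped Quaternion

namespace Pool.Agent.Results.MP_3b44a3_an.NotInner

noncomputable section

/-- The value `∑ q ^ n a_n` at `q` of the function with the coefficients `a_n`
(coefficients on the right). -/
def ev (f : PowerSeries ℍ[ℝ]) (q : ℍ[ℝ]) : ℍ[ℝ] := ∑' n : ℕ, q ^ n * PowerSeries.coeff n f

/-- `f` is slice regular on the unit ball: the power series converges there. -/
def SliceRegular (f : PowerSeries ℍ[ℝ]) : Prop :=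
  ∀ q : ℍ[ℝ], ‖q‖ < 1 → Summable fun n : ℕ => q ^ n * PowerSeries.coeff n f

/-- The Hardy space `H²(𝔹)`: the coefficients are square summable. -/
def MemH2 (f : PowerSeries ℍ[ℝ]) : Prop := Summable fun n : ℕ => ‖PowerSeries.coeff n f‖ ^ 2

/-- The space `H^∞(𝔹)`: slice regular and bounded on the unit ball. -/
def MemHinf (f : PowerSeries ℍ[ℝ]) : Prop :=
  SliceRegular f ∧ ∃ M : ℝ, ∀ q : ℍ[ℝ], ‖q‖ < 1 → ‖ev f q‖ ≤ M

/-- The `*`-product: the `n`-th coefficient is `∑_{k ≤ n} a_k b_{n-k}`. -/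
def starMul (f g : PowerSeries ℍ[ℝ]) : PowerSeries ℍ[ℝ] :=
  PowerSeries.mk fun n => ∑ k ∈ Finset.range (n + 1),
    PowerSeries.coeff k f * PowerSeries.coeff (n - k) g

/-- The conjugate `f^c`, with coefficients the quaternionic conjugates of those of `f`. -/
def conjC (f : PowerSeries ℍ[ℝ]) : PowerSeries ℍ[ℝ] :=
  PowerSeries.mk fun n => star (PowerSeries.coeff n f)

/-- The symmetrization `f^s = f^c * f` (`*`-product). -/
def symm (f : PowerSeries ℍ[ℝ]) : PowerSeries ℍ[ℝ] := starMul (conjC f) f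

/-- The imaginary unit `x i + y j + z k` for a point `(x, y, z)` of the unit sphere of `ℝ³`. -/
def unitIm (v : sphere (0 : EuclideanSpace ℝ (Fin 3)) 1) : ℍ[ℝ] :=
  ⟨0, (v : EuclideanSpace ℝ (Fin 3)) 0, (v : EuclideanSpace ℝ (Fin 3)) 1,
    (v : EuclideanSpace ℝ (Fin 3)) 2⟩

/-- The point `e^{t I} = cos t + sin t I` of `∂𝔹`, `I` the imaginary unit given by `v`. -/
def bd (v : sphere (0 : EuclideanSpace ℝ (Fin 3)) 1) (t : ℝ) : ℍ[ℝ] :=
  (Real.cos t : ℍ[ℝ]) + Real.sin t • unitIm v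

/-- The measure `dσ(I) dt` on the pairs `(I, t)`, `0 < t ≤ 2π`, `σ` the area measure of the unit
sphere of `ℝ³`. Its image under `(I, t) ↦ e^{t I}` is `Σ` up to the normalization. -/
def Sig : Measure (sphere (0 : EuclideanSpace ℝ (Fin 3)) 1 × ℝ) :=
  ((volume : Measure (EuclideanSpace ℝ (Fin 3))).toSphere).prod
    (volume.restrict (Set.Ioc 0 (2 * Real.pi)))

/-- Inner functions: `φ ∈ H^∞(𝔹)`, `|φ| ≤ 1` on `𝔹`, and for `Σ`-almost every boundary point the
boundary value (the radial limit) has modulus one. -/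
def IsInner (f : PowerSeries ℍ[ℝ]) : Prop :=
  MemHinf f ∧ (∀ q : ℍ[ℝ], ‖q‖ < 1 → ‖ev f q‖ ≤ 1) ∧
    ∀ᵐ x ∂Sig, ∃ L : ℍ[ℝ], ‖L‖ = 1 ∧
      Tendsto (fun r : ℝ => ev f (r • bd x.1 x.2)) (𝓝[<] 1) (𝓝 L)

/-! ### The example -/

lemma starMul_eq (f g : PowerSeries ℍ[ℝ]) : starMul f g = f * g := by
  ext n : 1
  rw [starMul, PowerSeries.coeff_mk, PowerSeries.coeff_mul,
    Finset.Nat.sum_antidiagonal_eq_sum_range_succ
      (fun k l => PowerSeries.coeff k f * PowerSeries.coeff l g)]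

lemma norm_coeC (z : ℂ) : ‖(z : ℍ[ℝ])‖ = ‖z‖ := by
  have h1 : ‖(z : ℍ[ℝ])‖ * ‖(z : ℍ[ℝ])‖ = ‖z‖ * ‖z‖ := by
    rw [← Quaternion.normSq_eq_norm_mul_self, ← sq ‖z‖, ← Complex.normSq_eq_norm_sq]
    simp [Quaternion.normSq_def', Complex.normSq_apply]
    ring
  nlinarith [norm_nonneg z, norm_nonneg (z : ℍ[ℝ]), h1]

/-- The series `∑ (c ^ n / n!) X ^ n`. -/
def E (c : ℂ) : PowerSeries ℂ := PowerSeries.mk fun n => c ^ n / (n.factorial : ℂ)

lemma E_mul (c : ℂ) : E c * E (-c) = 1 := by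
  ext n : 1
  rw [PowerSeries.coeff_mul]
  have h1 : ∀ x ∈ Finset.HasAntidiagonal.antidiagonal n,
      PowerSeries.coeff x.1 (E c) * PowerSeries.coeff x.2 (E (-c)) =
        (1 / (n.factorial : ℂ)) * (c ^ x.1 * (-c) ^ x.2 * (n.choose x.1 : ℂ)) := by
    rintro ⟨k, l⟩ hkl
    rw [Finset.HasAntidiagonal.mem_antidiagonal] at hkl
    simp only at hkl
    subst hkl
    simp only [E, PowerSeries.coeff_mk]
    have h2 : ((k + l).choose k : ℂ) = (k + l).factorial / (k.factorial * l.factorial) := by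
      have hh := Nat.add_choose_mul_factorial_mul_factorial k l
      have hk0 : (k.factorial : ℂ) ≠ 0 := by exact_mod_cast Nat.factorial_ne_zero _
      have hl0 : (l.factorial : ℂ) ≠ 0 := by exact_mod_cast Nat.factorial_ne_zero _
      rw [eq_div_iff (mul_ne_zero hk0 hl0), ← mul_assoc]
      rw [Nat.choose_symm_add] at *
      exact_mod_cast hh
    rw [h2]
    have h3 : ((k + l).factorial : ℂ) ≠ 0 := by exact_mod_cast Nat.factorial_ne_zero _
    have h4 : (k.factorial : ℂ) ≠ 0 := by exact_mod_cast Nat.factorial_ne_zero _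
    have h5 : (l.factorial : ℂ) ≠ 0 := by exact_mod_cast Nat.factorial_ne_zero _
    field_simp
  rw [Finset.sum_congr rfl h1, ← Finset.mul_sum]
  have h6 := (Commute.all c (-c)).add_pow' n
  simp only [add_neg_cancel, nsmul_eq_mul] at h6
  have h7 : ∑ x ∈ Finset.HasAntidiagonal.antidiagonal n, c ^ x.1 * (-c) ^ x.2 * (n.choose x.1 : ℂ) = 0 ^ n := by
    rw [h6]
    refine Finset.sum_congr rfl fun x _ => ?_
    ring
  rw [h7]
  rcases Nat.eq_zero_or_pos n with rfl | hn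
  · simp
  · rw [zero_pow hn.ne', mul_zero, PowerSeries.coeff_one, if_neg hn.ne']

/-- The inclusion `ℂ → ℍ` as a ring homomorphism. -/
def inc : ℂ →+* ℍ[ℝ] := (Quaternion.ofComplex : ℂ →ₐ[ℝ] ℍ[ℝ]).toRingHom

lemma inc_apply (z : ℂ) : inc z = (z : ℍ[ℝ]) := rfl

/-- `q ^ m * exp_*(q c)` for a complex number `c`. -/
def ex (m : ℕ) (c : ℂ) : PowerSeries ℍ[ℝ] := PowerSeries.map inc (PowerSeries.X ^ m * E c)

lemma coeff_ex (m : ℕ) (c : ℂ) (n : ℕ) : PowerSeries.coeff n (ex m c) =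
    ((if m ≤ n then c ^ (n - m) / ((n - m).factorial : ℂ) else 0 : ℂ) : ℍ[ℝ]) := by
  rw [ex, PowerSeries.coeff_map, PowerSeries.coeff_X_pow_mul', inc_apply]
  split_ifs <;> simp [E]

lemma conjC_ex (m : ℕ) (c : ℂ) : conjC (ex m c) = ex m (starRingEnd ℂ c) := by
  ext n : 1
  rw [conjC, PowerSeries.coeff_mk, coeff_ex, coeff_ex]
  have h : ∀ z : ℂ, star (z : ℍ[ℝ]) = ((starRingEnd ℂ z : ℂ) : ℍ[ℝ]) := by
    intro z
    ext <;> simp
  rw [h]
  split_ifs
  · simp
  · simp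

lemma symm_ex (m : ℕ) : symm (ex m Complex.I) = PowerSeries.X ^ (2 * m) := by
  rw [symm, conjC_ex, starMul_eq, ex, ex, ← map_mul, Complex.conj_I]
  have h : (PowerSeries.X : PowerSeries ℂ) ^ m * E (-Complex.I) *
      (PowerSeries.X ^ m * E Complex.I) = PowerSeries.X ^ (2 * m) := by
    calc (PowerSeries.X : PowerSeries ℂ) ^ m * E (-Complex.I) *
        (PowerSeries.X ^ m * E Complex.I)
        = PowerSeries.X ^ (2 * m) * (E Complex.I * E (-Complex.I)) := by ring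
      _ = _ := by rw [E_mul, mul_one]
  rw [h, map_pow, PowerSeries.map_X]

lemma norm_coeff_le (m : ℕ) (c : ℂ) (hc : ‖c‖ = 1) (n : ℕ) :
    ‖PowerSeries.coeff n (ex m c)‖ ≤ if m ≤ n then 1 / ((n - m).factorial : ℝ) else 0 := by
  rw [coeff_ex, norm_coeC]
  split_ifs
  · simp [hc]
  · simp

lemma summable_fac (m : ℕ) :
    Summable fun n : ℕ => (if m ≤ n then 1 / ((n - m).factorial : ℝ) else 0 : ℝ) := by
  rw [← summable_nat_add_iff m]
  have h := Real.summable_pow_div_factorial 1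
  refine h.congr fun n => ?_
  simp

lemma memH2_ex (m : ℕ) (c : ℂ) (hc : ‖c‖ = 1) : MemH2 (ex m c) := by
  refine Summable.of_nonneg_of_le (fun n => by positivity) (fun n => ?_) (summable_fac m)
  have h1 := norm_coeff_le m c hc n
  have h2 : (if m ≤ n then 1 / ((n - m).factorial : ℝ) else 0 : ℝ) ≤ 1 := by
    split_ifs
    · rw [div_le_one (by positivity)]
      exact_mod_cast Nat.factorial_pos _
    · norm_num
  have h3 := norm_nonneg (PowerSeries.coeff n (ex m c))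
  nlinarith

lemma memHinf_ex (m : ℕ) (c : ℂ) (hc : ‖c‖ = 1) : MemHinf (ex m c) := by
  have hb : ∀ q : ℍ[ℝ], ‖q‖ < 1 → ∀ n : ℕ, ‖q ^ n * PowerSeries.coeff n (ex m c)‖ ≤
      (if m ≤ n then 1 / ((n - m).factorial : ℝ) else 0 : ℝ) := by
    intro q hq n
    rw [norm_mul, norm_pow]
    have h1 := norm_coeff_le m c hc n
    have h2 : ‖q‖ ^ n ≤ 1 := pow_le_one₀ (norm_nonneg _) hq.le
    have h3 := norm_nonneg (PowerSeries.coeff n (ex m c))
    calc ‖q‖ ^ n * ‖PowerSeries.coeff n (ex m c)‖ ≤ 1 * ‖PowerSeries.coeff n (ex m c)‖ := by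
          gcongr
      _ ≤ _ := by rw [one_mul]; exact h1
  refine ⟨fun q hq => Summable.of_norm_bounded (summable_fac m) (hb q hq),
    ∑' n : ℕ, (if m ≤ n then 1 / ((n - m).factorial : ℝ) else 0 : ℝ), fun q hq => ?_⟩
  exact tsum_of_norm_bounded (summable_fac m).hasSum (hb q hq)

lemma ev_ex (m : ℕ) (c z : ℂ) : ev (ex m c) (z : ℍ[ℝ]) = ((z ^ m * Complex.exp (c * z) : ℂ) : ℍ[ℝ]) := by
  have h1 : HasSum (fun n : ℕ => z ^ n * (if m ≤ n then c ^ (n - m) / ((n - m).factorial : ℂ) else 0))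
      (z ^ m * Complex.exp (c * z)) := by
    have h2 : HasSum (fun n : ℕ => (c * z) ^ n / (n.factorial : ℂ)) (Complex.exp (c * z)) := by
      have := NormedSpace.expSeries_div_hasSum_exp (𝔸 := ℂ) (c * z)
      rwa [← Complex.exp_eq_exp_ℂ] at this
    have h3 := h2.mul_left (z ^ m)
    rw [← hasSum_nat_add_iff' m]
    have h4 : ∑ i ∈ Finset.range m, z ^ i * (if m ≤ i then c ^ (i - m) / ((i - m).factorial : ℂ) else 0)
        = 0 := by
      refine Finset.sum_eq_zero fun i hi => ?_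
      rw [if_neg (by simpa using hi), mul_zero]
    rw [h4, sub_zero]
    refine h3.congr_fun ?_ |> id
    intro n
    simp only [le_add_iff_nonneg_left, zero_le, if_true, Nat.add_sub_cancel]
    ring
  have hcont : Continuous (fun z : ℂ => (z : ℍ[ℝ])) := by
    have h5 : ∀ z : ℂ, (z : ℍ[ℝ]) = (Quaternion.ofComplex : ℂ →ₐ[ℝ] ℍ[ℝ]).toLinearMap z := fun _ => rfl
    have h6 := LinearMap.continuous_of_finiteDimensional
      (Quaternion.ofComplex : ℂ →ₐ[ℝ] ℍ[ℝ]).toLinearMap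
    exact h6
  have h7 := h1.map (inc : ℂ →+ ℍ[ℝ]) hcont
  rw [ev]
  refine HasSum.tsum_eq ?_
  convert h7 using 2 with n
  · rw [coeff_ex]
    simp only [Function.comp_apply]
    change _ = inc _
    rw [map_mul, map_pow]
    rfl
  · rfl

lemma not_inner_ex (m : ℕ) (c : ℂ) (hc : c ^ 2 = -1) (hc1 : ‖c‖ = 1) : ¬ IsInner (ex m c) := by
  rintro ⟨-, h, -⟩
  have hcont : Tendsto (fun s : ℝ => s ^ m * Real.exp s) (𝓝[<] 1) (𝓝 ((1:ℝ) ^ m * Real.exp 1)) := by
    refine Tendsto.mono_left ?_ nhdsWithin_le_nhds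
    exact (by fun_prop : Continuous fun s : ℝ => s ^ m * Real.exp s).tendsto 1
  have h1 : (1:ℝ) < (1:ℝ) ^ m * Real.exp 1 := by
    rw [one_pow, one_mul]
    exact Real.one_lt_exp_iff.mpr one_pos
  have h2 := hcont.eventually (lt_mem_nhds h1)
  have h3 : ∀ᶠ s : ℝ in 𝓝[<] 1, 0 < s := by
    have : ∀ᶠ s : ℝ in 𝓝 1, 0 < s := lt_mem_nhds one_pos
    exact this.filter_mono nhdsWithin_le_nhds
  obtain ⟨s, ⟨hs1, hs2⟩, hs3⟩ := ((h2.and h3).and self_mem_nhdsWithin).exists
  have hs3' : s < 1 := hs3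
  have h4 := h (((-(s:ℂ) * c : ℂ)) : ℍ[ℝ]) (by
    rw [norm_coeC, norm_mul, hc1, mul_one, norm_neg, Complex.norm_real, Real.norm_eq_abs,
      abs_of_pos hs2]
    exact hs3')
  rw [ev_ex, norm_coeC, norm_mul, norm_pow, norm_mul, hc1, mul_one, norm_neg, Complex.norm_real,
    Real.norm_eq_abs, abs_of_pos hs2] at h4
  have h5 : c * (-(s:ℂ) * c) = (s : ℂ) := by
    calc c * (-(s:ℂ) * c) = -(s:ℂ) * c ^ 2 := by ring
      _ = s := by rw [hc]; ring
  rw [h5, Complex.norm_exp, Complex.ofReal_re] at h4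
  linarith

lemma norm_bd (v : sphere (0 : EuclideanSpace ℝ (Fin 3)) 1) (t : ℝ) : ‖bd v t‖ = 1 := by
  have hv : (v : EuclideanSpace ℝ (Fin 3)) 0 ^ 2 + (v : EuclideanSpace ℝ (Fin 3)) 1 ^ 2 +
      (v : EuclideanSpace ℝ (Fin 3)) 2 ^ 2 = 1 := by
    have h1 : ‖(v : EuclideanSpace ℝ (Fin 3))‖ = 1 := norm_eq_of_mem_sphere v
    have h2 := EuclideanSpace.norm_sq_eq (v : EuclideanSpace ℝ (Fin 3))
    rw [h1, Fin.sum_univ_three] at h2
    simp only [Real.norm_eq_abs, sq_abs] at h2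
    linarith
  have h : ‖bd v t‖ * ‖bd v t‖ = 1 := by
    rw [← Quaternion.normSq_eq_norm_mul_self, Quaternion.normSq_def']
    have e0 : (bd v t).re = Real.cos t + Real.sin t * 0 := rfl
    have e1 : (bd v t).imI = 0 + Real.sin t * (v : EuclideanSpace ℝ (Fin 3)) 0 := rfl
    have e2 : (bd v t).imJ = 0 + Real.sin t * (v : EuclideanSpace ℝ (Fin 3)) 1 := rfl
    have e3 : (bd v t).imK = 0 + Real.sin t * (v : EuclideanSpace ℝ (Fin 3)) 2 := rfl
    rw [e0, e1, e2, e3]
    have h3 := Real.sin_sq_add_cos_sq t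
    linear_combination (Real.sin t ^ 2) * hv + h3
  nlinarith [norm_nonneg (bd v t)]

lemma ev_X_pow (k : ℕ) (q : ℍ[ℝ]) : ev (PowerSeries.X ^ k) q = q ^ k := by
  rw [ev, tsum_eq_single k]
  · simp [PowerSeries.coeff_X_pow]
  · intro n hn
    simp [PowerSeries.coeff_X_pow, hn]

lemma inner_X_pow (k : ℕ) : IsInner (PowerSeries.X ^ k) := by
  have hle : ∀ q : ℍ[ℝ], ‖q‖ < 1 → ‖ev (PowerSeries.X ^ k) q‖ ≤ 1 := by
    intro q hq
    rw [ev_X_pow, norm_pow]
    exact pow_le_one₀ (norm_nonneg _) hq.le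
  refine ⟨⟨fun q _ => ?_, 1, hle⟩, hle, Eventually.of_forall fun x => ?_⟩
  · refine summable_of_ne_finset_zero (s := {k}) fun n hn => ?_
    have : n ≠ k := by simpa using hn
    simp [PowerSeries.coeff_X_pow, this]
  · refine ⟨bd x.1 x.2 ^ k, by rw [norm_pow, norm_bd, one_pow], ?_⟩
    simp only [ev_X_pow]
    have h1 : Tendsto (fun r : ℝ => (r • bd x.1 x.2) ^ k) (𝓝 1) (𝓝 (((1:ℝ) • bd x.1 x.2) ^ k)) := by
      have hc : Continuous fun r : ℝ => (r • bd x.1 x.2) ^ k := by fun_prop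
      exact hc.tendsto 1
    rw [one_smul] at h1
    exact h1.mono_left nhdsWithin_le_nhds

/-- **An inner symmetrization does not force a function of `H²(𝔹)` to be inner.** For every `m`
there is `f ∈ H²(𝔹)`, moreover in `H^∞(𝔹)`, whose symmetrization
`f^s = f^c * f = f * f^c` is the inner function `q ^ (2 m)`, while neither `f` nor `f^c` is inner. -/
theorem result : ∀ m : ℕ, ∃ f : PowerSeries ℍ[ℝ],
    MemH2 f ∧ MemHinf f ∧ symm f = starMul f (conjC f) ∧
      (∀ q : ℍ[ℝ], ev (symm f) q = q ^ (2 * m)) ∧ IsInner (symm f) ∧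
      ¬ IsInner f ∧ ¬ IsInner (conjC f) := by
  intro m
  refine ⟨ex m Complex.I, memH2_ex m _ (by simp), memHinf_ex m _ (by simp), ?_, ?_, ?_, ?_, ?_⟩
  · rw [symm_ex, starMul_eq, conjC_ex, ex, ex, ← map_mul, Complex.conj_I]
    have h : (PowerSeries.X : PowerSeries ℂ) ^ m * E Complex.I *
        (PowerSeries.X ^ m * E (-Complex.I)) = PowerSeries.X ^ (2 * m) := by
      calc (PowerSeries.X : PowerSeries ℂ) ^ m * E Complex.I *
          (PowerSeries.X ^ m * E (-Complex.I))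
          = PowerSeries.X ^ (2 * m) * (E Complex.I * E (-Complex.I)) := by ring
        _ = _ := by rw [E_mul, mul_one]
    rw [h, map_pow, PowerSeries.map_X]
  · intro q
    rw [symm_ex, ev_X_pow]
  · rw [symm_ex]
    exact inner_X_pow _
  · exact not_inner_ex m _ (by simp) (by simp)
  · rw [conjC_ex, Complex.conj_I]
    exact not_inner_ex m _ (by simp) (by simp)

end

end Pool.Agent.Results.MP_3b44a3_an.NotInner
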